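import Pool.Agent.Q28.FG.High

/-!
# Algebraic coniveau and generators of the groups of homologically trivial cycles

Let `X` be a smooth projective complex variety of dimension `n`, let `A_i^hom(X)` be the group of
homologically trivial cycles of dimension `i` modulo rational equivalence, with rational
coefficients, and `c ≥ 0`. Then `X` has algebraic coniveau at least `c` (a decomposition of the
diagonal in cohomology; it implies Hodge coniveau at least `c`, and the converse is part of the
conjectures of Hodge and Grothendieck) if and only if the groups `A_i^hom(X)`, `i < c`, are generated
under arbitrary correspondences by one homologically trivial cycle on some variety, or by countably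
many homologically trivial cycles on varieties `V l`.
-/

open CategoryTheory AlgebraicGeometry

universe u v w

namespace Pool.Agent.Results.MP_13bc1c_ag.ConiveauByGenerators

open Pool.Agent.H914 Pool.Agent.H914.VarClass Pool.Agent.H914.VarClass.Obj Pool.Agent.W492.BB
  Pool.Agent.TH133 Pool.Agent.Q28.PV Pool.Agent.Q28.AL Pool.Agent.Q28.FG

/-- **Algebraic coniveau and generators.** Let `C` be the Chow theory with rational coefficients and
`H` a Weil cohomology theory on the smooth projective varieties over the complex numbers (`hP`: known
facts on algebraic cycles), `X` a variety and `c` a natural number. Equivalent: `X` has algebraic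
coniveau at least `c`; there is one homologically trivial cycle `g` on a variety `V` such that for
`i < c` all elements of `A_i^hom(X)` are of the form `Γ_* g`; for `i < c` the elements of
`A_i^hom(X)` are sums of classes `Γ_* (g l)` for countably many homologically trivial cycles `g l` on
varieties `V l`. (In terms of the codimension `j` the groups `A_i^hom(X)` with `i < c` are those with
`dim X < j + c`.) -/
theorem result {k : Type u} [Field k] {𝒱 : VarClass k} {C : TheoryData.{u, v, 0} 𝒱 ℚ}
    [IsChowProj C] {K : Type w} [Field K] {H : WeilTheoryData.{u, v, w} C K} [IsWeilProj H]
    (hP : Principles H) (X : 𝒱.Obj) (c : ℕ) :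
    [AlgebraicConiveau H X c, OneGeneratorUpTo H (HomTriv H) X c,
      CountablyGeneratedUpTo H (HomTriv H) X c].TFAE :=
  (main hP X c).1

end Pool.Agent.Results.MP_13bc1c_ag.ConiveauByGenerators
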