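import Pool.Agent.Q59.GH.Sys

/-!
# The generalized Bloch conjecture for Fermat varieties of all dimensions and degrees

Let `X_m : x_0 ^ m + ... + x_(N-1) ^ m = 0` be the Fermat variety of degree `m` and dimension
`n = N - 2`. With coefficients in `ℚ(ζ_m)` its Chow motive is the sum of the motives `1, L, ..., L ^ n`
and of the pieces `M_s`, cut out by the group `μ_m ^ N`, where `s` runs over the tuples of `N` nonzero
residues modulo `m` with sum zero; the cohomology of `M_s` is a line, in degree `n`. Put
`⟨s⟩ = (sum of the representatives of the entries in 0, ..., m - 1) / m`. The Hodge type of this line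
is `(N - 1 - ⟨s⟩, ⟨s⟩ - 1)` (in some order), and the Galois group permutes the pieces by the
multiplications with the units `t` modulo `m`. So the part of `X_m` of Hodge coniveau at least `c`
is the sum of the `M_s` with `HasConiveau c s`: `c + 1 ≤ ⟨t s⟩ ≤ N - 1 - c` for all units `t`.

The generalized Bloch conjecture predicts that for these `s` the Chow groups `A_i (M_s)`, `i < c`,
vanish (all cycles of dimension `i < c ≤ n / 2` on `M_s` are homologically trivial). The structure
`FermatMotives` lists the known facts about the Chow motives `M_s` which we use: the inductive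
structure of Shioda and Katsura (the piece of the join of two characters is
`M_s ⊗ M_t ⊗ L`), the vanishing of the Chow groups of effective motives of dimension `d` outside the
dimensions `0, ..., d`, and the known converse direction (if `A_i (M_s) = 0` for `i < c`, then `M_s`
has Hodge coniveau at least `c`: Bloch and Srinivas, Paranjape, Laterveer).

The theorem. Fix `N` and `c` with `2 * (c + 1) ≤ N`. For ALL degrees `m ≥ 1` the number of the pieces of
Hodge coniveau at least `c` is

`S(N, c + 1) * m ^ (n + 1 - c) + Q (m mod P) (m)`,   degree of `Q j` at most `n - c`,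

where `S(N, r)` is the number of the partitions of a set with `N` elements in `r` blocks with at least
two elements each, and for all but at most `R (m mod P) (m)` of them, with polynomials `R j` of degree at
most `n - c`, the prediction of the generalized Bloch conjecture is true: the Chow groups `A_i (M_s)`
vanish for all `i < c` (and for all `i > n - c`). In particular the generalized Bloch conjecture is
true for 100 percent of the part of Hodge coniveau at least `c` of the Fermat varieties of dimension
`n` when the degree tends to infinity.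
-/

namespace Pool.Agent.Results.MP_13bc1c_ag.FermatVarieties

open Finset

/-- The characters of degree `m`: nonempty multisets of nonzero residues with sum zero. -/
def IsCharacter {m : ℕ} (s : Multiset (ZMod m)) : Prop :=
  s ≠ 0 ∧ (0 : ZMod m) ∉ s ∧ s.sum = 0

/-- The characters of Hodge coniveau at least `c`: no entry is zero, the sum is zero and all
conjugates satisfy `c + 1 ≤ ⟨t s⟩` and `⟨t s⟩ + (c + 1) ≤ N` (`N` the number of the
entries), where `m * ⟨s⟩` is the sum of the representatives between `0` and `m - 1`. -/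
def HasConiveau {m : ℕ} (c : ℕ) (s : Multiset (ZMod m)) : Prop :=
  (0 : ZMod m) ∉ s ∧ s.sum = 0 ∧ ∀ t : (ZMod m)ˣ,
    (c + 1) * m ≤ (s.map fun a => ((t : ZMod m) * a).val).sum ∧
    (s.map fun a => ((t : ZMod m) * a).val).sum + (c + 1) * m ≤ Multiset.card s * m

/-- A category of Chow motives (coefficients in a field containing `ℚ(ζ_m)`) with the pieces of the
Fermat varieties of degree `m`, and the known facts which we use. -/
structure FermatMotives (m : ℕ) where
  /-- the objects: Chow motives -/
  Obj : Type
  /-- isomorphism of motives -/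
  Iso : Obj → Obj → Prop
  /-- tensor product -/
  tensor : Obj → Obj → Obj
  /-- tensor product with the Lefschetz motive `L` -/
  lef : Obj → Obj
  /-- `Eff d M`: `M` is a direct summand of the motive of a smooth projective variety of dimension
  `d` -/
  Eff : ℕ → Obj → Prop
  /-- the Chow group `A_i (M)` of the cycles of dimension `i` -/
  chow : ℤ → Obj → Type
  /-- it is a group -/
  grp : ∀ i M, AddCommGroup (chow i M)
  /-- the piece `M_s` of the Fermat variety, for a character `s` -/
  piece : Multiset (ZMod m) → Obj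
  /-- isomorphism is an equivalence relation compatible with tensor products -/
  iso_refl : ∀ M, Iso M M
  iso_symm : ∀ M M', Iso M M' → Iso M' M
  iso_trans : ∀ M M' M'', Iso M M' → Iso M' M'' → Iso M M''
  iso_tensor : ∀ M M' K K', Iso M M' → Iso K K' → Iso (tensor M K) (tensor M' K')
  iso_lef : ∀ M M', Iso M M' → Iso (lef M) (lef M')
  /-- `(M ⊗ L) ⊗ K` and `M ⊗ (K ⊗ L)` are isomorphic to `(M ⊗ K) ⊗ L` -/
  lef_left : ∀ M K, Iso (tensor (lef M) K) (lef (tensor M K))
  lef_right : ∀ M K, Iso (tensor M (lef K)) (lef (tensor M K))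
  /-- the product of varieties of dimensions `d` and `e` has dimension `d + e` -/
  eff_tensor : ∀ d e M K, Eff d M → Eff e K → Eff (d + e) (tensor M K)
  /-- isomorphic motives have the same Chow groups -/
  chow_iso : ∀ i M M', Iso M M' → Nonempty (chow i M ≃ chow i M')
  /-- `A_(i+1) (M ⊗ L) = A_i (M)` -/
  chow_lef : ∀ i M, Nonempty (chow (i + 1) (lef M) ≃ chow i M)
  /-- a variety of dimension `d` has no cycles of negative dimension or of dimension above `d` -/
  chow_eff : ∀ d M i, Eff d M → (i < 0 ∨ (d : ℤ) < i) → Subsingleton (chow i M)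
  /-- `M_s` is a direct summand of the motive of the Fermat variety of dimension `N - 2`, `N` the
  number of the entries of `s` -/
  piece_eff : ∀ s, IsCharacter s → ∀ d, Multiset.card s = d + 2 → Eff d (piece s)
  /-- the inductive structure of Fermat varieties (Shioda, Katsura) -/
  join : ∀ s t, IsCharacter s → IsCharacter t →
    Iso (piece (s + t)) (lef (tensor (piece s) (piece t)))
  /-- the known direction (Bloch and Srinivas, Paranjape, Laterveer): if the Chow groups of
  dimension less than `c` vanish, then the Hodge coniveau is at least `c` -/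
  level : ∀ s c, IsCharacter s → 2 * (c + 1) ≤ Multiset.card s →
    (∀ i : ℤ, i < c → Subsingleton (chow i (piece s))) → HasConiveau c s

attribute [instance] FermatMotives.grp

/-- The number of the pieces of coniveau at least `c` of the Fermat variety of degree `m` and
dimension `N - 2` (counted as tuples). -/
noncomputable def hodgeLines (N c m : ℕ) : ℕ :=
  Nat.card {s : Fin N → ZMod m // HasConiveau c ((univ : Finset (Fin N)).val.map s)}

/-- The conclusion of the generalized Bloch conjecture for `M_s`, `s` with `N` entries: the Chow groups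
`A_i (M_s)` vanish for all `i < c`; and we add: for all `i > n - c`, `n = N - 2`. -/
def Vanishes {m : ℕ} (F : FermatMotives m) (N c : ℕ) (s : Multiset (ZMod m)) : Prop :=
  IsCharacter s ∧ ∀ i : ℤ, (i < c ∨ (N : ℤ) - 2 - c < i) → Subsingleton (F.chow i (F.piece s))

/-- The number of the pieces of the Fermat variety of degree `m` and dimension `N - 2` of Hodge
coniveau at least `c` for which the Chow groups `A_i`, `i < c` or `i > N - 2 - c`, do not all
vanish (the possible counterexamples of the generalized Bloch conjecture). -/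
noncomputable def exceptions {m : ℕ} (F : FermatMotives m) (N c : ℕ) : ℕ :=
  Nat.card {s : Fin N → ZMod m // HasConiveau c ((univ : Finset (Fin N)).val.map s) ∧
    ¬ Vanishes F N c ((univ : Finset (Fin N)).val.map s)}

/-- The number of the set partitions of `N` elements in `r` blocks with at least two elements. -/
def blockPartitions (N r : ℕ) : ℕ :=
  ((univ : Finset (Finpartition (univ : Finset (Fin N)))).filter fun P =>
    P.parts.card = r ∧ ∀ β ∈ P.parts, 2 ≤ β.card).card

/-- `c` times the tensor product with the Lefschetz motive. -/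
def lefs {m : ℕ} (F : FermatMotives m) (c : ℕ) (M : F.Obj) : F.Obj := F.lef^[c] M

lemma lefs_succ {m : ℕ} (F : FermatMotives m) (c : ℕ) (M : F.Obj) :
    lefs F (c + 1) M = F.lef (lefs F c M) := by
  unfold lefs
  rw [Function.iterate_succ_apply']

lemma iso_lefs {m : ℕ} (F : FermatMotives m) (c : ℕ) (M M' : F.Obj) (h : F.Iso M M') :
    F.Iso (lefs F c M) (lefs F c M') := by
  induction c with
  | zero => exact h
  | succ c ih => rw [lefs_succ, lefs_succ]; exact F.iso_lef _ _ ih

lemma lefs_tensor_left {m : ℕ} (F : FermatMotives m) (c : ℕ) (M K : F.Obj) :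
    F.Iso (F.tensor (lefs F c M) K) (lefs F c (F.tensor M K)) := by
  induction c with
  | zero => exact F.iso_refl _
  | succ c ih =>
    rw [lefs_succ, lefs_succ]
    exact F.iso_trans _ _ _ (F.lef_left _ _) (F.iso_lef _ _ ih)

lemma lefs_tensor_right {m : ℕ} (F : FermatMotives m) (c : ℕ) (M K : F.Obj) :
    F.Iso (F.tensor M (lefs F c K)) (lefs F c (F.tensor M K)) := by
  induction c with
  | zero => exact F.iso_refl _
  | succ c ih =>
    rw [lefs_succ, lefs_succ]
    exact F.iso_trans _ _ _ (F.lef_right _ _) (F.iso_lef _ _ ih)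

lemma lefs_add {m : ℕ} (F : FermatMotives m) (c d : ℕ) (M : F.Obj) :
    lefs F c (lefs F d M) = lefs F (c + d) M := by
  unfold lefs
  rw [Function.iterate_add_apply]

/-- `M_s` is the twist by `c` of an effective motive of dimension `N - 2 - 2 c`. -/
def Twisted {m : ℕ} (F : FermatMotives m) (c : ℕ) (s : Multiset (ZMod m)) : Prop :=
  IsCharacter s ∧ ∃ (d : ℕ) (K : F.Obj), Multiset.card s = d + 2 * c + 2 ∧ F.Eff d K ∧
    F.Iso (F.piece s) (lefs F c K)

lemma chow_lefs {m : ℕ} (F : FermatMotives m) (c : ℕ) (K : F.Obj) (i : ℤ) :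
    Nonempty (F.chow (i + c) (lefs F c K) ≃ F.chow i K) := by
  induction c with
  | zero =>
    refine ⟨Equiv.cast ?_⟩
    simp [lefs]
  | succ c ih =>
    obtain ⟨e⟩ := ih
    rw [lefs_succ]
    have h : (i + ((c + 1 : ℕ) : ℤ)) = (i + c) + 1 := by push_cast; ring
    rw [h]
    obtain ⟨e2⟩ := F.chow_lef (i + c) (lefs F c K)
    exact ⟨e2.trans e⟩

lemma twisted_vanish {m : ℕ} (F : FermatMotives m) {c : ℕ} {s : Multiset (ZMod m)}
    (h : Twisted F c s) {N : ℕ} (hN : Multiset.card s = N) : Vanishes F N c s := by
  obtain ⟨hs, d, K, hd, hK, hi⟩ := h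
  refine ⟨hs, fun i hi2 => ?_⟩
  obtain ⟨e1⟩ := F.chow_iso i _ _ hi
  obtain ⟨e2⟩ := chow_lefs F c K (i - c)
  have h3 : (i - c + (c : ℤ)) = i := by ring
  rw [h3] at e2
  have h4 : Subsingleton (F.chow (i - c) K) := by
    refine F.chow_eff d K (i - c) hK ?_
    rcases hi2 with h5 | h5
    · left; omega
    · right
      have : (N : ℤ) = d + 2 * c + 2 := by exact_mod_cast (hN.symm.trans hd)
      omega
  exact (e1.trans e2).subsingleton

lemma isCharacter_card {m : ℕ} {s : Multiset (ZMod m)} (h : IsCharacter s) :
    ∃ d, Multiset.card s = d + 2 := by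
  obtain ⟨h0, h1, h2⟩ := h
  have h3 : 0 < Multiset.card s := Multiset.card_pos.mpr h0
  rcases Nat.lt_or_ge (Multiset.card s) 2 with h4 | h4
  · exfalso
    have h5 : Multiset.card s = 1 := by omega
    obtain ⟨a, rfl⟩ := Multiset.card_eq_one.mp h5
    simp at h1 h2
    exact h1 h2.symm
  · exact ⟨Multiset.card s - 2, by omega⟩

lemma supp {m : ℕ} (F : FermatMotives m) : Pool.Agent.Q59.GH.Supp m (Twisted F) := by
  refine ⟨?_, ?_, ?_⟩
  · intro c s h
    have h1 := twisted_vanish F h rfl
    obtain ⟨hs, d, K, hd, -, -⟩ := h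
    exact F.level s c hs (by omega) fun i hi => h1.2 i (Or.inl hi)
  · intro s h0 h1 h2
    have hs : IsCharacter s := ⟨h0, h1, h2⟩
    obtain ⟨d, hd⟩ := isCharacter_card hs
    exact ⟨hs, d, F.piece s, by omega, F.piece_eff s hs d hd, F.iso_refl _⟩
  · intro c e s t h1 h2
    obtain ⟨hs, d, K, hd, hK, hi⟩ := h1
    obtain ⟨ht, d', K', hd', hK', hi'⟩ := h2
    refine ⟨⟨?_, ?_, ?_⟩, d + d', F.tensor K K', ?_, F.eff_tensor _ _ _ _ hK hK', ?_⟩
    · intro h
      have h3 := congrArg Multiset.card h
      rw [Multiset.card_add, Multiset.card_zero] at h3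
      omega
    · intro h
      rcases Multiset.mem_add.mp h with h | h
      · exact hs.2.1 h
      · exact ht.2.1 h
    · rw [Multiset.sum_add, hs.2.2, ht.2.2, add_zero]
    · rw [Multiset.card_add]; omega
    · refine F.iso_trans _ _ _ (F.join s t hs ht) ?_
      rw [lefs_succ]
      apply F.iso_lef
      refine F.iso_trans _ _ _ (F.iso_tensor _ _ _ _ hi hi') ?_
      refine F.iso_trans _ _ _ (lefs_tensor_left F c _ _) ?_
      rw [← lefs_add]
      exact iso_lefs F c _ _ (lefs_tensor_right F e _ _)

lemma exceptions_le {m N c : ℕ} (hm : 0 < m) (F : FermatMotives m) :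
    exceptions F N c ≤ Pool.Agent.Q59.GH.econ (Fin N) c m := by
  classical
  have : NeZero m := ⟨hm.ne'⟩
  unfold exceptions Pool.Agent.Q59.GH.econ
  rw [Nat.card_eq_fintype_card, Nat.card_eq_fintype_card, Fintype.card_subtype,
    Fintype.card_subtype]
  refine card_le_card fun s hs => ?_
  obtain ⟨h1, h2⟩ := (mem_filter.mp hs).2
  refine mem_filter.mpr ⟨mem_univ _, (Pool.Agent.Q59.GH.hasCon_iff s).mp h1, fun h3 => h2 ?_⟩
  exact twisted_vanish F (Pool.Agent.Q59.GH.supp_of_blocks (supp F) h3) (by simp)

/-- **The generalized Bloch conjecture for almost all of the cohomology of Fermat varieties.** -/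
theorem result (N c : ℕ) (hN : 2 * (c + 1) ≤ N) :
    0 < blockPartitions N (c + 1) ∧
    (∃ P : ℕ, 0 < P ∧ ∃ Q R : ℕ → Polynomial ℚ,
      (∀ j, (Q j).natDegree ≤ N - 2 - c ∧ (R j).natDegree ≤ N - 2 - c) ∧
      ∀ m, 0 < m →
        (hodgeLines N c m : ℚ) =
          (blockPartitions N (c + 1) : ℚ) * (m : ℚ) ^ (N - 1 - c) + (Q (m % P)).eval (m : ℚ) ∧
        ∀ F : FermatMotives m,
          (∀ s : Multiset (ZMod m), Multiset.card s = N → Vanishes F N c s → HasConiveau c s) ∧
          (exceptions F N c : ℚ) ≤ (R (m % P)).eval (m : ℚ)) ∧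
    ∀ ε : ℚ, 0 < ε → ∃ M : ℕ, ∀ m, M ≤ m → 0 < m →
      ∀ F : FermatMotives m, (exceptions F N c : ℚ) ≤ ε * hodgeLines N c m := by
  have hl : ∀ m, hodgeLines N c m = Pool.Agent.Q59.GH.hcon (Fin N) c m := by
    intro m
    unfold hodgeLines Pool.Agent.Q59.GH.hcon
    exact Nat.card_congr (Equiv.subtypeEquivRight fun s => Pool.Agent.Q59.GH.hasCon_iff s)
  obtain ⟨⟨P, hP, Q, R, h1, h2⟩, h3⟩ := Pool.Agent.Q59.GH.main_supp hN
  refine ⟨Pool.Agent.Q59.GH.BP_pos (Nat.succ_pos c) hN, ⟨P, hP, Q, R, h1, fun m hm => ?_⟩,
    fun ε hε => ?_⟩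
  · obtain ⟨h4, h5⟩ := h2 m hm
    rw [hl m]
    refine ⟨h4, fun F => ⟨fun s hs hv => ?_, ?_⟩⟩
    · exact F.level s c hv.1 (by omega) fun i hi => hv.2 i (Or.inl hi)
    · rw [← h5]
      exact_mod_cast exceptions_le hm F
  · obtain ⟨M, hM⟩ := h3 ε hε
    refine ⟨M, fun m hm hm0 F => ?_⟩
    rw [hl m]
    refine le_trans ?_ (hM m hm hm0)
    exact_mod_cast exceptions_le hm0 F

end Pool.Agent.Results.MP_13bc1c_ag.FermatVarieties
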