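import Mathlib
import Pool.Agent.Q58.Scal.BBDefs
import Pool.Agent.Q58.Scal.Quot

/-!
# Zero-cycles on quotients of products of curves

Let `C_t`, `t ∈ T`, be finitely many smooth proper integral curves over an algebraically closed
field `k` (for instance `ℂ`), `X = ∏_t C_t^{n_t}` and `π : X → Y` a morphism.  Let `c` be a linear
combination, with nonzero sum of coefficients, of scalar endomorphisms `f` of `X` with `π f = π`
(`ScalarMor`: endomorphisms acting on the Albanese variety `∏_t J(C_t)^{n_t}` through rational
matrices).  For instance let `G` be a finite group of scalar automorphisms, `Y = X / G` and `c`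
the sum of the elements of `G`; then `c` acts as zero on `H^{i,0}(X)` if and only if
`h^{i,0} = 0` for the resolutions of `Y`.

If `c` acts as zero on `H^{i,0}(X)` for all `i > r`, then `CH_0` of `π(X)` is supported in
dimension `r`: every point `π(x)` is rationally equivalent to a combination, with coefficients of
sum one, of images of points with at most `r` coordinates different from those of a given point
`o`.  For `r = 0` all points `π(x)` are rationally equivalent.
-/

namespace Pool.Agent.Results.MP_13bc1c_ag.QuotientsOfProducts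

open AlgebraicGeometry CategoryTheory Limits Q58.Chow

universe u

theorem result {k : Type u} [Field k] [IsAlgClosed k] {T : Type} [Fintype T] [DecidableEq T]
    (C : T → Sch k) [∀ t, IsCurve (C t)] (g : T → ℕ) (hg : ∀ t, genus (C t) = g t)
    (n : T → ℕ) (Y : Sch k) (π : powX C n ⟶ Y) (c : PowMor C n n →₀ ℚ)
    (hπ : ∀ f ∈ c.support, f.hom ≫ π = π) (hc : (c.sum fun _ a => a) ≠ 0)
    (r : ℕ) (hr : ∀ i, r < i → ZeroOnForms c g i)
    (o : ∀ t, Fin (n t) → Pt (C t)) (x : Pt (powX C n)) :
    ∃ w : Pt (powX C n) →₀ ℚ, (w.sum fun _ a => a) = 1 ∧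
      (∀ y ∈ w.support, ∃ B : Finset (Σ t, Fin (n t)), B.card ≤ r ∧
        ∀ t j, (⟨t, j⟩ : Σ t, Fin (n t)) ∉ B → y ≫ projX C (fun t => Fin (n t)) t j = o t j) ∧
      cl Y (Finsupp.single (x ≫ π) 1) = cl Y (push π w) := by
  obtain ⟨w, h1, h2, h3⟩ := quotient_support hg hπ hc hr o x
  refine ⟨w, h1, h2, ?_⟩
  rw [← sub_eq_zero, ← map_sub, cl_eq_zero]
  exact h3

end Pool.Agent.Results.MP_13bc1c_ag.QuotientsOfProducts
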