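import Pool.Agent.Q28.FG.High

/-!
# The vanishing of the groups of homologically trivial cycles and finite generation

Let `X` be a smooth projective complex variety of dimension `n`, let `A_i^hom(X)` be the group of
homologically trivial cycles of dimension `i` modulo rational equivalence, with rational
coefficients, and `c ≥ 0`. Then `A_i^hom(X) = 0` for all `i < c` if and only if `A_i^hom(X)` is a
finitely generated module over the ring of self-correspondences `CH^n(X × X)` for all `i < c`, if and
only if these groups are generated, under arbitrary correspondences `Γ ∈ CH^*(V × X)`, by one
algebraically trivial cycle on some variety `V`, or by countably many algebraically trivial cycles on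
varieties `V l`.
-/

open CategoryTheory AlgebraicGeometry

universe u v w

namespace Pool.Agent.Results.MP_13bc1c_ag.VanishingByGenerators

open Pool.Agent.H914 Pool.Agent.H914.VarClass Pool.Agent.H914.VarClass.Obj Pool.Agent.W492.BB
  Pool.Agent.TH133 Pool.Agent.Q28.PV Pool.Agent.Q28.AL Pool.Agent.Q28.FG

/-- **The generalized Bloch conjecture and finite generation.** Let `C` be the Chow theory with
rational coefficients and `H` a Weil cohomology theory on the smooth projective varieties over the
complex numbers (`hP`: known facts on algebraic cycles), `X` a variety and `c` a natural number.
Equivalent: `A_i^hom(X) = 0` for `i < c`; `A_i^hom(X)` is a finitely generated module over the ring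
`CH^(dim X)(X × X)` for `i < c`; there is one algebraically trivial cycle `g` on a variety `V` such
that for `i < c` all elements of `A_i^hom(X)` are of the form `Γ_* g`; for `i < c` the elements of
`A_i^hom(X)` are sums of classes `Γ_* (g l)` for countably many algebraically trivial cycles `g l` on
varieties `V l`. (In terms of the codimension `j` the groups `A_i^hom(X)` with `i < c` are those with
`dim X < j + c`.) -/
theorem result {k : Type u} [Field k] {𝒱 : VarClass k} {C : TheoryData.{u, v, 0} 𝒱 ℚ}
    [IsChowProj C] {K : Type w} [Field K] {H : WeilTheoryData.{u, v, w} C K} [IsWeilProj H]
    (hP : Principles H) (X : 𝒱.Obj) (c : ℕ) :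
    [BlochUpTo H X c, FinitelyGeneratedUpTo H X c, OneGeneratorUpTo H (AlgTriv H) X c,
      CountablyGeneratedUpTo H (AlgTriv H) X c].TFAE :=
  (main hP X c).2

end Pool.Agent.Results.MP_13bc1c_ag.VanishingByGenerators
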